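import Pool.Agent.GR.Sig
import Pool.Agent.GK.Neg

/-!
# GR-Big: a normal subgroup of large index without complex conjugations

PLAN.  Intersect `N0` with the kernel of the character of `exists_neg` (GK/Neg, `V = ∅`, `T = {2}`): no complex conjugation, index at most
doubled, normal.  Then apply `exists_sig` `k` times: `u ∉ N` (`ker`, `one`: `σ u ≠ 0`), so the index at least doubles each time.
Bound: iterate `x ↦ x * 2 ^ x` (monotone).
-/

namespace Pool.Agent.GR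

open Pool.Agent.GJ Pool.Agent.GK MulAction Pool.Agent.H73.DU Pool.Agent.H73.AL Pool.Agent.LD
  Pool.Agent.TS

private theorem big_step (NM : Subgroup GQ) (hn : NM.Normal) (ho : IsOpen (NM : Set GQ)) :
    ∃ N : Subgroup GQ, N.Normal ∧ IsOpen (N : Set GQ) ∧ N ≤ NM ∧ NM.index + 1 ≤ N.index ∧
      N.index ≤ NM.index * 2 ^ NM.index := by
  obtain ⟨N, u, σ, h1, h2, h3, h4, h5, h6⟩ := exists_sig NM ho
  refine ⟨N, h1, h2, h3, ?_, h5⟩
  have f1 : NM.FiniteIndex := (nice_rat ∅).finiteIndex ho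
  have f2 : N.FiniteIndex := (nice_rat ∅).finiteIndex h2
  have hu : u ∉ N := by
    intro hu
    have h7 := h6.one
    rw [h6.ker u hu] at h7
    exact zero_ne_one h7
  have h8 := Subgroup.relIndex_mul_index h3
  have h9 : N.relIndex NM ≠ 1 := by
    intro h9
    rw [Subgroup.relIndex_eq_one] at h9
    exact hu (h9 h6.mem)
  have h10 : N.relIndex NM ≠ 0 := by
    intro h10
    rw [h10, zero_mul] at h8
    exact f2.index_ne_zero h8.symm
  have h11 : 1 ≤ NM.index := Nat.one_le_iff_ne_zero.2 f1.index_ne_zero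
  have h12 : 2 ≤ N.relIndex NM := by omega
  have h13 := Nat.mul_le_mul_right NM.index h12
  omega

private theorem big_iter (k : ℕ) : ∃ f : ℕ → ℕ, ∀ N0 : Subgroup GQ, N0.Normal →
    IsOpen (N0 : Set GQ) → ∀ x : ℕ, N0.index ≤ x → ∃ NM : Subgroup GQ, NM.Normal ∧
      IsOpen (NM : Set GQ) ∧ NM ≤ N0 ∧ k ≤ NM.index ∧ NM.index ≤ f x := by
  induction k with
  | zero => exact ⟨id, fun N0 h1 h2 x hx => ⟨N0, h1, h2, le_refl _, Nat.zero_le _, hx⟩⟩
  | succ k ih =>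
    obtain ⟨f, hf⟩ := ih
    refine ⟨fun x => f x * 2 ^ f x, fun N0 h1 h2 x hx => ?_⟩
    obtain ⟨NM, h3, h4, h5, h6, h7⟩ := hf N0 h1 h2 x hx
    obtain ⟨N, h8, h9, h10, h11, h12⟩ := big_step NM h3 h4
    refine ⟨N, h8, h9, h10.trans h5, by omega, h12.trans ?_⟩
    exact Nat.mul_le_mul h7 (Nat.pow_le_pow_right (by norm_num) h7)

private theorem big_neg : ∃ K : Subgroup GQ, K.Normal ∧ IsOpen (K : Set GQ) ∧ K.index ≤ 2 ∧
    ∀ c : GQ, IsCc c → c ∉ K := by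
  obtain ⟨κ, hκ, -, hc⟩ := exists_neg ∅ (T := {2}) (Finset.mem_singleton_self 2)
  have hm : ∀ g : GQ, g ∈ kr ⊤ κ ↔ κ g = 1 := fun g =>
    ⟨fun h => ((mem_kr hκ.1).1 h).2, fun h => (mem_kr hκ.1).2 ⟨trivial, h⟩⟩
  let φ : GQ →* ℤˣ := MonoidHom.mk' κ fun a b => hκ.1 a trivial b trivial
  have hφ : φ.ker = kr ⊤ κ := by
    ext g
    rw [hm, MonoidHom.mem_ker]
    rfl
  refine ⟨kr ⊤ κ, ?_, hκ.2, ?_, ?_⟩
  · rw [← hφ]
    exact φ.normal_ker
  · rw [← hφ, Subgroup.index_ker]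
    refine (Nat.card_le_card_of_injective _ Subtype.val_injective).trans ?_
    rw [Nat.card_eq_fintype_card]
    decide
  · intro c hcc h
    rw [hm, hc c hcc] at h
    exact absurd h (by decide)

theorem exists_big (k : ℕ) : ∃ f : ℕ → ℕ, ∀ N0 : Subgroup GQ, N0.Normal →
    IsOpen (N0 : Set GQ) → ∃ NM : Subgroup GQ, NM.Normal ∧ IsOpen (NM : Set GQ) ∧ NM ≤ N0 ∧
      (∀ c : GQ, IsCc c → c ∉ NM) ∧ k ≤ NM.index ∧ NM.index ≤ f N0.index := by
  obtain ⟨f, hf⟩ := big_iter k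
  obtain ⟨K, h1, h2, h3, h4⟩ := big_neg
  refine ⟨fun x => f (x * 2), fun N0 h5 h6 => ?_⟩
  have h7 : (N0 ⊓ K).Normal := inferInstance
  obtain ⟨NM, h8, h9, h10, h11, h12⟩ := hf (N0 ⊓ K) h7 (h6.inter h2) (N0.index * 2)
    ((Subgroup.index_inf_le).trans (Nat.mul_le_mul_left _ h3))
  exact ⟨NM, h8, h9, h10.trans inf_le_left, fun c hc h => h4 c hc (h10 h).2, h11, h12⟩

end Pool.Agent.GR
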