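import Pool.Agent.GR.CntA

/-!
# GR-CntB: an involution has few fixed points

`F = fx (G ⧸ L) (zpowers c)`.  The map `F × (G ⧸ NM) → G ⧸ L`, `(z, y) ↦ (γ u γ⁻¹) • z` with `γ = y.out`, has fibres with at
most two elements: if `u^γ z = u^γ' z'` with `z`, `z'` fixed by `c`, then `v = (u^γ')⁻¹ u^γ`, `z' = v z`, and `a = v⁻¹ (c v c⁻¹) ∈ NM`
fixes `z`; `σ a = δ_γ + δ_(c γ) + δ_γ' + δ_(c γ')` has a support of size 4 unless `γ' NM = γ NM` or `γ' NM = c γ NM`
(`c` has no fixed points on `G ⧸ NM`), which contradicts `sup_ne`.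
-/

namespace Pool.Agent.GR

open MulAction Pool.Agent.H73.DU Pool.Agent.TS

variable {G : Type} [Group G] {NM N : Subgroup G} [NM.Normal] [N.Normal] [NM.FiniteIndex]
  [N.FiniteIndex] {u t : G} {σ : G → (G ⧸ NM) → ZMod 2} {L : Subgroup G}

omit [NM.Normal] [N.Normal] [NM.FiniteIndex] [N.FiniteIndex] in
open Classical in
private theorem cntB_sig (h : Sig NM N u σ) (γ : G) (y : G ⧸ NM) :
    σ (γ * u * γ⁻¹) y = if y = (γ : G ⧸ NM) then 1 else 0 := by
  have h1 := h.conj γ u h.mem (γ⁻¹ • y)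
  rw [smul_inv_smul] at h1
  rw [h1]
  split_ifs with h2
  · have h3 : γ⁻¹ • y = ((1 : G) : G ⧸ NM) := by
      rw [h2]
      change ((γ⁻¹ * γ : G) : G ⧸ NM) = _
      rw [inv_mul_cancel]
    rw [h3]
    exact h.one
  · refine h.zero _ fun h3 => h2 ?_
    have h4 : y = γ • ((1 : G) : G ⧸ NM) := by rw [← h3, smul_inv_smul]
    rw [h4]
    change ((γ * 1 : G) : G ⧸ NM) = _
    rw [mul_one]

omit [NM.Normal] [N.Normal] [NM.FiniteIndex] [N.FiniteIndex] in
private theorem cntB_inv (h : Sig NM N u σ) {a : G} (ha : a ∈ NM) (y : G ⧸ NM) :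
    σ a⁻¹ y = σ a y := by
  have h1 := h.add a⁻¹ (NM.inv_mem ha) a ha
  rw [inv_mul_cancel, h.ker 1 N.one_mem] at h1
  have h2 := congrFun h1 y
  rw [Pi.zero_apply, Pi.add_apply] at h2
  have h3 : σ a⁻¹ y = -σ a y := eq_neg_of_add_eq_zero_left h2.symm
  rw [h3, ZMod.neg_eq_self_mod_two]

omit [N.Normal] [NM.FiniteIndex] [N.FiniteIndex] in
private theorem cntB_card (h : Sig NM N u σ) {c : G} (hc : c ∉ NM) (hc2 : c * c ∈ NM) {γ γ' : G}
    (h1 : (γ' : G ⧸ NM) ≠ (γ : G ⧸ NM)) (h2 : (γ' : G ⧸ NM) ≠ c • (γ : G ⧸ NM)) {v : G}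
    (hv : v = (γ' * u * γ'⁻¹)⁻¹ * (γ * u * γ⁻¹)) :
    Nat.card {y : G ⧸ NM // σ (v⁻¹ * (c * v * c⁻¹)) y ≠ 0} = 4 := by
  classical
  have hn : NM.Normal := inferInstance
  have hm1 : γ * u * γ⁻¹ ∈ NM := hn.conj_mem u h.mem γ
  have hm2 : γ' * u * γ'⁻¹ ∈ NM := hn.conj_mem u h.mem γ'
  have hvm : v ∈ NM := by
    rw [hv]
    exact NM.mul_mem (NM.inv_mem hm2) hm1
  have hfree : ∀ y : G ⧸ NM, c • y ≠ y := by
    intro y
    induction y using QuotientGroup.induction_on with
    | H x =>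
      intro h3
      have h4 : ((c * x : G) : G ⧸ NM) = (x : G ⧸ NM) := h3
      rw [QuotientGroup.eq] at h4
      apply hc
      have h5 := hn.conj_mem _ (NM.inv_mem h4) x
      have h6 : x * ((c * x)⁻¹ * x)⁻¹ * x⁻¹ = c := by group
      rwa [h6] at h5
  have hinv : ∀ y : G ⧸ NM, c • c • y = y := by
    intro y
    induction y using QuotientGroup.induction_on with
    | H x =>
      change ((c * (c * x) : G) : G ⧸ NM) = (x : G ⧸ NM)
      rw [QuotientGroup.eq]
      have h5 := hn.conj_mem _ (NM.inv_mem hc2) x⁻¹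
      have h6 : x⁻¹ * (c * c)⁻¹ * x⁻¹⁻¹ = (c * (c * x))⁻¹ * x := by group
      rwa [h6] at h5
  have hcinv : ∀ y : G ⧸ NM, c⁻¹ • y = c • y := by
    intro y
    have h3 := hinv (c⁻¹ • y)
    rw [smul_inv_smul] at h3
    exact h3.symm
  have hsv : ∀ y : G ⧸ NM, σ v y =
      (if y = (γ' : G ⧸ NM) then 1 else 0) + (if y = (γ : G ⧸ NM) then 1 else 0) := by
    intro y
    rw [hv, h.add _ (NM.inv_mem hm2) _ hm1, Pi.add_apply, cntB_inv h hm2, cntB_sig h, cntB_sig h]
  have hsa : ∀ y : G ⧸ NM, σ (v⁻¹ * (c * v * c⁻¹)) y = σ v y + σ v (c • y) := by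
    intro y
    rw [h.add _ (NM.inv_mem hvm) _ (hn.conj_mem v hvm c), Pi.add_apply, cntB_inv h hvm]
    have h3 := h.conj c v hvm (c • y)
    rw [hinv] at h3
    rw [h3]
  have hset : {y : G ⧸ NM | σ (v⁻¹ * (c * v * c⁻¹)) y ≠ 0} =
      (({(γ : G ⧸ NM), (γ' : G ⧸ NM), c • (γ : G ⧸ NM), c • (γ' : G ⧸ NM)} :
        Finset (G ⧸ NM)) : Set (G ⧸ NM)) := by
    ext y
    rw [Finset.mem_coe, Finset.mem_insert, Finset.mem_insert, Finset.mem_insert,
      Finset.mem_singleton]
    change σ (v⁻¹ * (c * v * c⁻¹)) y ≠ 0 ↔ _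
    rw [hsa, hsv, hsv]
    have e1 : ∀ p : G ⧸ NM, c • y = p ↔ y = c • p := by
      intro p
      constructor
      · rintro rfl
        exact (hinv y).symm
      · rintro rfl
        exact hinv p
    rw [if_congr (e1 _) rfl rfl, if_congr (e1 _) rfl rfl]
    by_cases a1 : y = (γ : G ⧸ NM)
    · subst a1
      rw [if_neg (Ne.symm h1), if_pos rfl, if_neg (fun h3 => h2 (by rw [h3, hinv])),
        if_neg (hfree _).symm]
      simp
    · by_cases a2 : y = (γ' : G ⧸ NM)
      · subst a2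
        rw [if_pos rfl, if_neg a1, if_neg (hfree _).symm, if_neg h2]
        simp
      · by_cases a3 : y = c • (γ : G ⧸ NM)
        · rw [if_neg a2, if_neg a1, if_neg, if_pos a3]
          · simp [a3]
          · intro h3
            rw [a3] at h3
            have h4 := congrArg (fun z => c • z) h3
            rw [hinv, hinv] at h4
            exact h1 h4.symm
        · by_cases a4 : y = c • (γ' : G ⧸ NM)
          · rw [if_neg a2, if_neg a1, if_pos a4, if_neg a3]
            simp [a4]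
          · rw [if_neg a2, if_neg a1, if_neg a4, if_neg a3]
            constructor
            · intro h3
              exact absurd (by norm_num) h3
            · rintro (h3 | h3 | h3 | h3)
              · exact absurd h3 a1
              · exact absurd h3 a2
              · exact absurd h3 a3
              · exact absurd h3 a4
  have hcard : ({(γ : G ⧸ NM), (γ' : G ⧸ NM), c • (γ : G ⧸ NM), c • (γ' : G ⧸ NM)} :
      Finset (G ⧸ NM)).card = 4 := by
    have b1 : c • (γ : G ⧸ NM) ≠ c • (γ' : G ⧸ NM) := by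
      intro h3
      have h4 := congrArg (fun z => c • z) h3
      rw [hinv, hinv] at h4
      exact h1 h4.symm
    have b2 : (γ : G ⧸ NM) ≠ c • (γ' : G ⧸ NM) := fun h3 => h2 (by rw [h3, hinv])
    rw [Finset.card_insert_of_notMem, Finset.card_insert_of_notMem, Finset.card_insert_of_notMem,
      Finset.card_singleton]
    · rw [Finset.mem_singleton]
      exact b1
    · rw [Finset.mem_insert, Finset.mem_singleton, not_or]
      exact ⟨h2, (hfree _).symm⟩
    · rw [Finset.mem_insert, Finset.mem_insert, Finset.mem_singleton, not_or, not_or]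
      exact ⟨Ne.symm h1, (hfree _).symm, b2⟩
  change Nat.card ({y : G ⧸ NM | σ (v⁻¹ * (c * v * c⁻¹)) y ≠ 0} : Set (G ⧸ NM)) = 4
  rw [hset, Nat.card_coe_set_eq, Set.ncard_coe_finset, hcard]

theorem fix_le (hle : N ≤ NM) (hsq : ∀ e ∈ NM, e * e ∈ N) (h : Sig NM N u σ)
    (ht : Kt NM N L t) (hNL : N ≤ L) {c : G} (hc : c ∉ NM) (hc2 : c * c ∈ NM) :
    (NM.index : ℤ) * pc L (Subgroup.zpowers c) ≤ 2 * (L.index : ℤ) := by
  classical
  have hn : NM.Normal := inferInstance
  have hL : L.FiniteIndex := Subgroup.finiteIndex_of_le hNL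
  have f1 : Finite (G ⧸ L) := Subgroup.finite_quotient_of_finiteIndex
  have f2 : Finite (G ⧸ NM) := Subgroup.finite_quotient_of_finiteIndex
  let _ : Fintype (G ⧸ L) := Fintype.ofFinite _
  let _ : Fintype (G ⧸ NM) := Fintype.ofFinite _
  let _ : Fintype (fx (G ⧸ L) (Subgroup.zpowers c)) := Fintype.ofFinite _
  let f : (fx (G ⧸ L) (Subgroup.zpowers c)) × (G ⧸ NM) → G ⧸ L :=
    fun x => (x.2.out * u * x.2.out⁻¹) • (x.1 : G ⧸ L)
  have key : ∀ x x', f x = f x' → x'.2 = x.2 ∨ x'.2 = c • x.2 := by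
    intro x x' hxx
    by_contra hcon
    rw [not_or] at hcon
    obtain ⟨⟨z, hz⟩, p⟩ := x
    obtain ⟨⟨z', hz'⟩, p'⟩ := x'
    have hz1 : c • z = z := fx_zpowers.1 hz
    have hz2 : c • z' = z' := fx_zpowers.1 hz'
    have hp : (p.out : G ⧸ NM) = p := Quotient.out_eq' p
    have hp' : (p'.out : G ⧸ NM) = p' := Quotient.out_eq' p'
    have hxx' : (p.out * u * p.out⁻¹) • z = (p'.out * u * p'.out⁻¹) • z' := hxx
    set v := (p'.out * u * p'.out⁻¹)⁻¹ * (p.out * u * p.out⁻¹) with hv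
    have hvz : v • z = z' := by
      rw [hv, mul_smul, hxx', inv_smul_smul]
    have hvm : v ∈ NM := NM.mul_mem (NM.inv_mem (hn.conj_mem u h.mem _)) (hn.conj_mem u h.mem _)
    have haz : (v⁻¹ * (c * v * c⁻¹)) • z = z := by
      have h3 : c⁻¹ • z = z := by
        conv_lhs => rw [← hz1]
        rw [inv_smul_smul]
      rw [mul_smul, mul_smul, mul_smul, h3, hvz, hz2, ← hvz, inv_smul_smul]
    have ham : v⁻¹ * (c * v * c⁻¹) ∈ NM := NM.mul_mem (NM.inv_mem hvm) (hn.conj_mem v hvm c)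
    have h4 := cntB_card (u := u) (σ := σ) h hc hc2 (γ := p.out) (γ' := p'.out)
      (by rw [hp, hp']; exact hcon.1) (by rw [hp, hp']; exact hcon.2) hv
    induction z using QuotientGroup.induction_on with
    | H g =>
      have h5 : (((v⁻¹ * (c * v * c⁻¹)) * g : G) : G ⧸ L) = (g : G ⧸ L) := haz
      rw [QuotientGroup.eq] at h5
      have h6 : g⁻¹ * (v⁻¹ * (c * v * c⁻¹)) * g ∈ L := by
        have h7 := L.inv_mem h5
        have h8 : ((v⁻¹ * (c * v * c⁻¹) * g)⁻¹ * g)⁻¹ = g⁻¹ * (v⁻¹ * (c * v * c⁻¹)) * g := by group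
        rwa [h8] at h7
      have h7 : g⁻¹ * (v⁻¹ * (c * v * c⁻¹)) * g ∈ NM := by
        have h8 := hn.conj_mem _ ham g⁻¹
        rwa [inv_inv] at h8
      refine sup_ne hle hsq h ht h6 h7 (Or.inr rfl) ?_
      rw [← h4]
      refine (Nat.card_congr ((MulAction.toPerm g⁻¹).subtypeEquiv fun y => ?_)).symm
      have h8 := h.conj g⁻¹ _ ham y
      rw [inv_inv] at h8
      rw [MulAction.toPerm_apply, h8]
  have hcount := Finset.card_le_mul_card_image (f := f) Finset.univ 2 (by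
    intro w hw
    obtain ⟨x0, -, hx0⟩ := Finset.mem_image.1 hw
    have h3 : (Finset.univ.filter fun x => f x = w).card ≤ ({x0.2, c • x0.2} :
        Finset (G ⧸ NM)).card := by
      refine Finset.card_le_card_of_injOn (fun x => x.2) ?_ ?_
      · intro x hx
        have h4 : f x = w := (Finset.mem_filter.1 (Finset.mem_coe.1 hx)).2
        refine Finset.mem_coe.2 (Finset.mem_insert.2 ?_)
        rcases key x0 x (hx0.trans h4.symm) with h5 | h5
        · exact Or.inl h5
        · exact Or.inr (Finset.mem_singleton.2 h5)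
      · intro x hx x' hx' hxx
        have h4 : f x = w := (Finset.mem_filter.1 (Finset.mem_coe.1 hx)).2
        have h5 : f x' = w := (Finset.mem_filter.1 (Finset.mem_coe.1 hx')).2
        have h6 : x.2 = x'.2 := hxx
        have h7 : (x.2.out * u * x.2.out⁻¹) • (x.1 : G ⧸ L) =
            (x'.2.out * u * x'.2.out⁻¹) • (x'.1 : G ⧸ L) := h4.trans h5.symm
        rw [h6] at h7
        exact Prod.ext (Subtype.ext (smul_left_cancel _ h7)) h6
    exact h3.trans Finset.card_le_two)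
  have h3 : (Finset.univ.image f).card ≤ L.index := by
    refine (Finset.card_le_univ _).trans (le_of_eq ?_)
    rw [← Nat.card_eq_fintype_card]
    rfl
  rw [Finset.card_univ, Fintype.card_prod, ← Nat.card_eq_fintype_card,
    ← Nat.card_eq_fintype_card] at hcount
  have h4 : Nat.card (G ⧸ NM) = NM.index := rfl
  rw [h4] at hcount
  have h5 : pc L (Subgroup.zpowers c) = (Nat.card (fx (G ⧸ L) (Subgroup.zpowers c)) : ℤ) := rfl
  rw [h5]
  have h6 : NM.index * Nat.card (fx (G ⧸ L) (Subgroup.zpowers c)) ≤ 2 * L.index := by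
    rw [mul_comm]
    exact hcount.trans (Nat.mul_le_mul_left 2 h3)
  exact_mod_cast h6

end Pool.Agent.GR
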