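import Pool.Agent.GK.Bas

/-!
# GR-Defs: few real places

Project GR (plan: /team-store/gr_plan.md).  `Ra g H`: at most `2 / g` of the points of `GQ ⧸ H` are fixed by a complex
conjugation, that is `g r₁(F) ≤ 2 [F : ℚ]` for the field `F` of `H`.  `Sig`: the dual description of `NM ⧸ N`.
-/

namespace Pool.Agent.GR

open Pool.Agent.GJ Pool.Agent.GK MulAction Pool.Agent.H73.DU Pool.Agent.H73.AL Pool.Agent.LD
  Pool.Agent.TS

/-- at most `2 / g` of the points are fixed by a complex conjugation -/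
def Ra (g : ℕ) (H : Subgroup GQ) : Prop :=
  ∀ c : GQ, IsCc c → (g : ℤ) * pc H (Subgroup.zpowers c) ≤ 2 * (H.index : ℤ)

/-- the exact subgroups -/
def Er (V T : Finset ℕ) (i g M : ℕ) (H : Subgroup GQ) : Prop :=
  IsOpen (H : Set GQ) ∧ ((Ci V T (i + 1) H ∧ Ra g H ∧ M ∣ H.index) ∨ TR H ∨
    ∃ H' : Subgroup GQ, IsOpen (H' : Set GQ) ∧ H ≤ H' ∧ H.relIndex H' = 2)

/-- the span of the exact subgroups, of the doubles, and of `ZT` -/
def ER (V T : Finset ℕ) (i g M B : ℕ) : AddSubgroup (Subgroup GQ → ℤ) :=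
  AddSubgroup.closure {f | (∃ H : Subgroup GQ, Er V T i g M H ∧ H.index ≤ B ∧ f = pc H) ∨
    (∃ H : Subgroup GQ, IsOpen (H : Set GQ) ∧ H.index ≤ B ∧ f = (2 : ℤ) • pc H) ∨ ZT T f}

/-- `σ` describes `NM` modulo a subgroup containing `N` by functions on `G ⧸ NM`; the conjugates of `u` correspond to the
points -/
structure Sig {G : Type} [Group G] (NM N : Subgroup G) (u : G) (σ : G → (G ⧸ NM) → ZMod 2) :
    Prop where
  mem : u ∈ NM
  add : ∀ a ∈ NM, ∀ b ∈ NM, σ (a * b) = σ a + σ b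
  conj : ∀ g : G, ∀ a ∈ NM, ∀ y : G ⧸ NM, σ (g * a * g⁻¹) (g • y) = σ a y
  ker : ∀ a ∈ N, σ a = 0
  one : σ u ((1 : G) : G ⧸ NM) = 1
  zero : ∀ y : G ⧸ NM, y ≠ ((1 : G) : G ⧸ NM) → σ u y = 0

/-- `t` has odd order modulo `N`, is not in `NM`, and `L` normalizes it modulo `N` -/
structure Kt {G : Type} [Group G] (NM N L : Subgroup G) (t : G) : Prop where
  nmem : t ∉ NM
  odd : ∃ q : ℕ, ¬ 2 ∣ q ∧ t ^ q ∈ N
  norm : ∀ x ∈ L, x * t * x⁻¹ ∈ Subgroup.zpowers t ⊔ N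

end Pool.Agent.GR
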