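import Pool.Agent.GR.Step

/-!
# GR-Alg: the algebraic theorem
-/

namespace Pool.Agent.GR

open Pool.Agent.GJ Pool.Agent.GK MulAction Pool.Agent.H73.DU Pool.Agent.H73.AL Pool.Agent.LD
  Pool.Agent.TS

theorem algR (i g m : ℕ) : ∃ b : ℕ → ℕ, ∀ (T : Finset ℕ) (_ : ∀ p ∈ T, p.Prime)
    (_ : 2 ∈ T) (V : Finset ℕ) (H : Subgroup GQ), Ci V T i H →
      pc H ∈ ER V T i g (2 ^ m) (b H.index) := by
  obtain ⟨f, hf⟩ := exists_big (max g (2 ^ m))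
  exact ⟨fun k => max (bN f k) k, fun T hTp h2 V H hH => stepR hTp h2 hf hH⟩

end Pool.Agent.GR
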