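import Pool.Agent.GR.RaDefs

/-!
# GR-Bas: first properties
-/

namespace Pool.Agent.GR

open Pool.Agent.GJ Pool.Agent.GK MulAction Pool.Agent.H73.DU Pool.Agent.H73.AL Pool.Agent.LD
  Pool.Agent.TS

variable {V T : Finset ℕ}

theorem Kt.mono {G : Type} [Group G] {NM N L L' : Subgroup G} {t : G} (h : Kt NM N L t)
    (hL : L' ≤ L) : Kt NM N L' t :=
  ⟨h.nmem, h.odd, fun x hx => h.norm x (hL hx)⟩

theorem Kt.conj {G : Type} [Group G] {NM N L L' : Subgroup G} [hM : NM.Normal] [hN : N.Normal]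
    {t : G} (h : Kt NM N L t) (b : G) (hL : ∀ x ∈ L', b * x * b⁻¹ ∈ L) :
    Kt NM N L' (b⁻¹ * t * b) := by
  refine ⟨fun hcon => h.nmem ?_, ?_, fun x hx => ?_⟩
  · have h1 := hM.conj_mem _ hcon b
    have h2 : b * (b⁻¹ * t * b) * b⁻¹ = t := by group
    rwa [h2] at h1
  · obtain ⟨q, hq, hq'⟩ := h.odd
    refine ⟨q, hq, ?_⟩
    have h1 := hN.conj_mem _ hq' b⁻¹
    have h2 : b⁻¹ * t ^ q * b⁻¹⁻¹ = (b⁻¹ * t * b) ^ q := by
      rw [← conj_pow, inv_inv]
    rwa [h2] at h1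
  · have h1 := h.norm _ (hL x hx)
    obtain ⟨s, hs, n, hn, hsn⟩ := Subgroup.mem_sup_of_normal_right.1 h1
    obtain ⟨k, rfl⟩ := Subgroup.mem_zpowers_iff.1 hs
    have h3 : x * (b⁻¹ * t * b) * x⁻¹ = (b⁻¹ * t * b) ^ k * (b⁻¹ * n * b) := by
      have h4 : (b⁻¹ * t * b) ^ k = b⁻¹ * t ^ k * b := by
        have := conj_zpow (i := k) (a := b⁻¹) (b := t)
        rwa [inv_inv] at this
      rw [h4]
      have h5 : x * (b⁻¹ * t * b) * x⁻¹ = b⁻¹ * ((b * x * b⁻¹) * t * (b * x * b⁻¹)⁻¹) * b := by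
        group
      rw [h5, ← hsn]
      group
    rw [h3]
    refine Subgroup.mul_mem_sup (Subgroup.zpow_mem _ (Subgroup.mem_zpowers _) k) ?_
    have h6 := hN.conj_mem _ hn b⁻¹
    rwa [inv_inv] at h6

theorem Kt.cj {NM N L : Subgroup GQ} [NM.Normal] [N.Normal]
    {t : GQ} (h : Kt NM N L t) (b : GQ) : Kt NM N (Pool.Agent.H73.DU.cj b L) (b⁻¹ * t * b) := by
  refine h.conj b fun x hx => ?_
  obtain ⟨u, hu, rfl⟩ := mem_cj_iff.1 hx
  have h1 : b * (b⁻¹ * u * b) * b⁻¹ = u := by group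
  rwa [h1]

theorem pc_le {H J : Subgroup GQ} (hJ : J ≤ H) [J.FiniteIndex] [H.FiniteIndex]
    (U : Subgroup GQ) : pc J U ≤ (J.relIndex H : ℤ) * pc H U := by
  classical
  have hf1 : Finite (GQ ⧸ H) := Subgroup.finite_quotient_of_finiteIndex
  have hf2 : Finite (GQ ⧸ J) := Subgroup.finite_quotient_of_finiteIndex
  have hf3 : Finite (H ⧸ J.subgroupOf H) := by
    have h1 : (J.subgroupOf H).FiniteIndex := inferInstance
    exact Subgroup.finite_quotient_of_finiteIndex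
  have key : Nat.card (fx (GQ ⧸ J) U) ≤ Nat.card (fx (GQ ⧸ H) U × (H ⧸ J.subgroupOf H)) := by
    refine Nat.card_le_card_of_injective (fun x => (⟨Subgroup.quotientMapOfLE hJ x.1, ?_⟩,
      (Subgroup.quotientEquivProdOfLE hJ x.1).2)) ?_
    · obtain ⟨x, hx⟩ := x
      intro u hu
      have h1 := hx u hu
      induction x using QuotientGroup.induction_on with
      | H a =>
        have h2 : (((u * a : GQ)) : GQ ⧸ J) = ((a : GQ) : GQ ⧸ J) := h1
        change (((u * a : GQ)) : GQ ⧸ H) = ((a : GQ) : GQ ⧸ H)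
        rw [QuotientGroup.eq] at h2 ⊢
        exact hJ h2
    · rintro ⟨x, hx⟩ ⟨y, hy⟩ h
      simp only [Prod.mk.injEq, Subtype.mk.injEq] at h
      apply Subtype.ext
      apply (Subgroup.quotientEquivProdOfLE hJ).injective
      refine Prod.ext ?_ h.2
      have h3 : ∀ z : GQ ⧸ J, (Subgroup.quotientEquivProdOfLE hJ z).1 =
          Subgroup.quotientMapOfLE hJ z := by
        intro z
        induction z using QuotientGroup.induction_on with
        | H a => rfl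
      rw [h3, h3]
      exact h.1
  rw [Nat.card_prod] at key
  unfold pc pch
  have h4 : Nat.card (H ⧸ J.subgroupOf H) = J.relIndex H := rfl
  rw [h4, mul_comm] at key
  exact_mod_cast key

theorem Ra.mono {g : ℕ} {H J : Subgroup GQ} (h : Ra g H) (hJ : J ≤ H) (hJo : IsOpen (J : Set GQ)) :
    Ra g J := by
  have hf : J.FiniteIndex := (nice_rat ∅).finiteIndex hJo
  have hf' : H.FiniteIndex := Subgroup.finiteIndex_of_le hJ
  intro c hc
  have h1 := h c hc
  have h2 := pc_le hJ (Subgroup.zpowers c)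
  have h3 : (J.index : ℤ) = (J.relIndex H : ℤ) * (H.index : ℤ) := by
    exact_mod_cast (Subgroup.relIndex_mul_index hJ).symm
  have h4 : (0 : ℤ) ≤ (J.relIndex H : ℤ) := by positivity
  rw [h3]
  have h5 : (0 : ℤ) ≤ (g : ℤ) := by positivity
  nlinarith [mul_le_mul_of_nonneg_left h2 h5, mul_le_mul_of_nonneg_left h1 h4]

theorem mem_Er {i g M B : ℕ} {H : Subgroup GQ} (h : Er V T i g M H)
    (hB : H.index ≤ B) : pc H ∈ ER V T i g M B :=
  AddSubgroup.subset_closure (Or.inl ⟨H, h, hB, rfl⟩)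

theorem mem_two {i g M B : ℕ} {H : Subgroup GQ} (h : IsOpen (H : Set GQ))
    (hB : H.index ≤ B) : (2 : ℤ) • pc H ∈ ER V T i g M B :=
  AddSubgroup.subset_closure (Or.inr (Or.inl ⟨H, h, hB, rfl⟩))

theorem mem_zero {i g M B : ℕ} {f : Subgroup GQ → ℤ} (h : ∀ U ∈ famT T, f U = 0) :
    f ∈ ER V T i g M B :=
  AddSubgroup.subset_closure (Or.inr (Or.inr (ZT_of_famT h)))

end Pool.Agent.GR
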