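import Pool.Agent.GR.RaDefs

/-!
# GR-CntA: the index of a killer is divisible by a large power of 2

PLAN.  `sup_inv` : if `a ∈ NM` commutes with `t` modulo `N` (in particular if `a ∈ L ⊓ NM`: `com`-like argument, TS/L/Com: the
commutator is in `NM` and in `zpowers t ⊔ N`, of odd order and of order dividing 2 modulo `N`), then the set of the `y` with
`σ a y ≠ 0` is invariant under `y ↦ t • y`, and `t` has no fixed points on `G ⧸ NM` (normal, `t ∉ NM`); all orbits of
`zpowers t` have the same odd length `≥ 3` (the order of `t` modulo `NM`).  So the set cannot have 2 or 4 elements.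
`u^γ = γ u γ⁻¹` has `σ = 1` exactly at `γ NM`.  For `γ NM ≠ γ' NM` the element `(u^γ')⁻¹ u^γ` (support of size 2) is not in `L`.
So `(L ⊓ NM).relIndex NM ≥ NM.index`; it is a power of 2 (`e * e ∈ N` for `e ∈ NM`), and divides `L.index`
(`L.index = (L ⊔ NM).index * (relIndex)`, NM normal).
-/

namespace Pool.Agent.GR

open MulAction

variable {G : Type} [Group G] {NM N : Subgroup G} [NM.Normal] [N.Normal] [NM.FiniteIndex]
  [N.FiniteIndex] {u t : G} {σ : G → (G ⧸ NM) → ZMod 2} {L : Subgroup G}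

private theorem com_mem (hsq : ∀ e ∈ NM, e * e ∈ N) (ht : Kt NM N L t)
    {a : G} (ha : a ∈ L) (ha' : a ∈ NM) : a * (t * a⁻¹ * t⁻¹) ∈ N := by
  obtain ⟨q, hq, htq⟩ := ht.odd
  have h1 : a * t * a⁻¹ ∈ Subgroup.zpowers t ⊔ N := ht.norm a ha
  have h2 : a * (t * a⁻¹ * t⁻¹) ∈ Subgroup.zpowers t ⊔ N := by
    have h3 : t⁻¹ ∈ Subgroup.zpowers t ⊔ N :=
      (Subgroup.mem_sup_left (Subgroup.mem_zpowers t) |> fun h => Subgroup.inv_mem _ h)
    have h4 := Subgroup.mul_mem _ h1 h3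
    have h5 : a * t * a⁻¹ * t⁻¹ = a * (t * a⁻¹ * t⁻¹) := by group
    rwa [h5] at h4
  have hNM : a * (t * a⁻¹ * t⁻¹) ∈ NM :=
    NM.mul_mem ha' (Subgroup.Normal.conj_mem inferInstance _ (NM.inv_mem ha') t)
  have hc2 := hsq _ hNM
  set c := a * (t * a⁻¹ * t⁻¹) with hc
  rw [Subgroup.mem_sup_of_normal_right] at h2
  obtain ⟨x, hx, n, hn, hxn⟩ := h2
  obtain ⟨j, hj⟩ := Subgroup.mem_zpowers_iff.1 hx
  -- work in the quotient by `N`
  have hcq : (c : G ⧸ N) = (t : G ⧸ N) ^ j := by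
    rw [← hxn, ← hj]
    rw [QuotientGroup.mk_mul, (QuotientGroup.eq_one_iff n).2 hn, mul_one, QuotientGroup.mk_zpow]
  have htq' : (t : G ⧸ N) ^ q = 1 := by
    rw [← QuotientGroup.mk_pow]
    exact (QuotientGroup.eq_one_iff _).2 htq
  have hc2' : (c : G ⧸ N) ^ 2 = 1 := by
    rw [pow_two, ← QuotientGroup.mk_mul]
    exact (QuotientGroup.eq_one_iff _).2 hc2
  have hcq' : (c : G ⧸ N) ^ q = 1 := by
    rw [hcq, ← zpow_natCast, ← zpow_mul, mul_comm, zpow_mul, zpow_natCast, htq', one_zpow]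
  have hcop : Nat.Coprime 2 q := (Nat.Prime.coprime_iff_not_dvd Nat.prime_two).2 hq
  have : (c : G ⧸ N) = 1 := by
    have h6 : (c : G ⧸ N) ^ (Nat.gcd 2 q) = 1 := pow_gcd_eq_one.2 ⟨hc2', hcq'⟩
    rwa [hcop, pow_one] at h6
  exact (QuotientGroup.eq_one_iff _).1 this

private theorem sig_one (h : Sig NM N u σ) : σ 1 = 0 := h.ker 1 N.one_mem

private theorem sig_inv (h : Sig NM N u σ) {a : G} (ha : a ∈ NM) : σ a⁻¹ = σ a := by
  have h1 := h.add a ha a⁻¹ (NM.inv_mem ha)
  rw [mul_inv_cancel, sig_one h] at h1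
  have h2 : σ a⁻¹ = - σ a := (neg_eq_of_add_eq_zero_right h1.symm).symm
  rw [h2]
  funext y
  simp [ZMod.neg_eq_self_mod_two]

private theorem sup_inv (hsq : ∀ e ∈ NM, e * e ∈ N) (h : Sig NM N u σ) (ht : Kt NM N L t)
    {a : G} (ha : a ∈ L) (ha' : a ∈ NM) (y : G ⧸ NM) : σ a (t • y) = σ a y := by
  have h1 := h.ker _ (com_mem hsq ht ha ha')
  have h2 : t * a⁻¹ * t⁻¹ ∈ NM := Subgroup.Normal.conj_mem inferInstance _ (NM.inv_mem ha') t
  rw [h.add a ha' _ h2] at h1
  have h3 := congrFun h1 (t • y)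
  rw [Pi.add_apply, h.conj t a⁻¹ (NM.inv_mem ha') y, sig_inv h ha'] at h3
  have h4 : σ a (t • y) = - σ a y := eq_neg_of_add_eq_zero_left h3
  rw [h4, ZMod.neg_eq_self_mod_two]

/-- the support of an element of `L ⊓ NM` does not have 2 or 4 elements -/
theorem sup_ne (hle : N ≤ NM) (hsq : ∀ e ∈ NM, e * e ∈ N) (h : Sig NM N u σ) (ht : Kt NM N L t)
    {a : G} (ha : a ∈ L) (ha' : a ∈ NM) {k : ℕ} (hk : k = 2 ∨ k = 4) :
    Nat.card {y : G ⧸ NM // σ a y ≠ 0} ≠ k := by
  classical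
  intro hcard
  have hfin : Finite (G ⧸ NM) := inferInstance
  -- the group of `γ` fixing `σ a`
  let S : Subgroup (G ⧸ NM) :=
    { carrier := {γ | ∀ y, σ a (γ * y) = σ a y}
      one_mem' := fun y => by rw [one_mul]
      mul_mem' := fun {p q} hp hq y => by rw [mul_assoc, hp, hq]
      inv_mem' := fun {p} hp y => by rw [← hp (p⁻¹ * y), mul_inv_cancel_left] }
  have htS : (t : G ⧸ NM) ∈ S := by
    intro y
    have h1 : (t : G ⧸ NM) * y = t • y := by
      induction y using QuotientGroup.induction_on with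
      | H z => rfl
    rw [h1]
    exact sup_inv hsq h ht ha ha' y
  let Γ : Subgroup (G ⧸ NM) := Subgroup.zpowers (t : G ⧸ NM)
  have hΓ : Γ ≤ S := by
    rw [Subgroup.zpowers_le]
    exact htS
  let Y : SubMulAction Γ (G ⧸ NM) :=
    { carrier := {y | σ a y ≠ 0}
      smul_mem' := fun γ y hy => by
        show σ a ((γ : G ⧸ NM) * y) ≠ 0
        rw [hΓ γ.2 y]
        exact hy }
  have hdvd : Nat.card Γ ∣ Nat.card Y := by
    have hY : Finite Y := Subtype.finite
    have hst : ∀ y : Y, MulAction.stabilizer Γ y = ⊥ := by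
      intro y
      rw [eq_bot_iff]
      intro γ hγ
      have h1 : γ • y = y := hγ
      have h2 : ((γ : G ⧸ NM)) * (y : G ⧸ NM) = y := congrArg Subtype.val h1
      have h3 : (γ : G ⧸ NM) = 1 := by
        have := mul_right_cancel (h2.trans (one_mul _).symm)
        exact this
      exact Subgroup.mem_bot.2 (Subtype.ext h3)
    have e := MulAction.selfEquivSigmaOrbitsQuotientStabilizer Γ Y
    haveI : Fintype (Quotient (MulAction.orbitRel Γ Y)) := Fintype.ofFinite _
    rw [Nat.card_congr e, Nat.card_sigma]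
    refine Finset.dvd_sum fun ω _ => ?_
    rw [hst]
    rw [Nat.card_congr (QuotientGroup.quotientBot (G := Γ)).toEquiv]
  have hY' : Nat.card Y = k := hcard
  rw [hY'] at hdvd
  obtain ⟨q, hq, htq⟩ := ht.odd
  have hord : Nat.card Γ ∣ q := by
    rw [Nat.card_zpowers]
    apply orderOf_dvd_of_pow_eq_one
    rw [← QuotientGroup.mk_pow]
    exact (QuotientGroup.eq_one_iff _).2 (hle htq)
  have hcop : Nat.Coprime (Nat.card Γ) k := by
    have h2 : Nat.Coprime 2 q := (Nat.Prime.coprime_iff_not_dvd Nat.prime_two).2 hq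
    have h3 : Nat.Coprime (Nat.card Γ) 2 := (Nat.Coprime.coprime_dvd_right hord h2).symm
    rcases hk with rfl | rfl
    · exact h3
    · exact Nat.Coprime.mul_right h3 h3
  have h1 : Nat.card Γ = 1 := Nat.Coprime.eq_one_of_dvd hcop hdvd
  rw [Nat.card_zpowers, orderOf_eq_one_iff] at h1
  exact ht.nmem ((QuotientGroup.eq_one_iff _).1 h1)

open Classical in
private theorem sig_conj (h : Sig NM N u σ) (g : G) (y : G ⧸ NM) :
    σ (g * u * g⁻¹) y = if y = (g : G ⧸ NM) then 1 else 0 := by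
  have h1 := h.conj g u h.mem (g⁻¹ • y)
  rw [smul_inv_smul] at h1
  rw [h1]
  split_ifs with hy
  · rw [hy]
    have h2 : g⁻¹ • ((g : G) : G ⧸ NM) = ((1 : G) : G ⧸ NM) := by
      show ((g⁻¹ * g : G) : G ⧸ NM) = _
      rw [inv_mul_cancel]
    rw [h2]
    exact h.one
  · apply h.zero
    intro h3
    apply hy
    have h4 : y = g • ((1 : G) : G ⧸ NM) := by rw [← h3, smul_inv_smul]
    rw [h4]
    show ((g * 1 : G) : G ⧸ NM) = _
    rw [mul_one]

private theorem index_le (hle : N ≤ NM) (hsq : ∀ e ∈ NM, e * e ∈ N) (h : Sig NM N u σ)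
    (ht : Kt NM N L t) : NM.index ≤ (L ⊓ NM).relIndex NM ∨ (L ⊓ NM).relIndex NM = 0 := by
  classical
  by_cases h0 : (L ⊓ NM).relIndex NM = 0
  · exact Or.inr h0
  left
  have hcj : ∀ g : G, g * u * g⁻¹ ∈ NM := fun g => Subgroup.Normal.conj_mem inferInstance _ h.mem g
  let F : G ⧸ NM → NM ⧸ (L ⊓ NM).subgroupOf NM := fun y =>
    QuotientGroup.mk ⟨y.out * u * y.out⁻¹, hcj _⟩
  have hF : Function.Injective F := by
    intro y y' hyy
    by_contra hne
    have h1 : (⟨y.out * u * y.out⁻¹, hcj _⟩ : NM)⁻¹ * ⟨y'.out * u * y'.out⁻¹, hcj _⟩ ∈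
        (L ⊓ NM).subgroupOf NM := QuotientGroup.eq.1 hyy
    rw [Subgroup.mem_subgroupOf] at h1
    set a : G := (y.out * u * y.out⁻¹)⁻¹ * (y'.out * u * y'.out⁻¹) with ha
    have haL : a ∈ L := h1.1
    have haN : a ∈ NM := h1.2
    have hσ : ∀ z, σ a z = (if z = y then 1 else 0) + (if z = y' then 1 else 0) := by
      intro z
      rw [ha, h.add _ (NM.inv_mem (hcj _)) _ (hcj _), Pi.add_apply, sig_inv h (hcj _),
        sig_conj h, sig_conj h]
      simp only [QuotientGroup.out_eq']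
    apply sup_ne hle hsq h ht haL haN (Or.inl rfl)
    have hset : {z : G ⧸ NM | σ a z ≠ 0} = {y, y'} := by
      ext z
      simp only [Set.mem_setOf_eq, Set.mem_insert_iff, Set.mem_singleton_iff]
      rw [hσ]
      by_cases h2 : z = y
      · subst h2
        simp [hne]
      · by_cases h3 : z = y'
        · subst h3
          simp [h2]
        · simp [h2, h3]
    have h4 : Nat.card {z : G ⧸ NM // σ a z ≠ 0} = Set.ncard {z : G ⧸ NM | σ a z ≠ 0} := rfl
    rw [h4, hset, Set.ncard_pair hne]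
  have hfin : Finite (NM ⧸ (L ⊓ NM).subgroupOf NM) := Nat.finite_of_card_ne_zero h0
  exact Nat.card_le_card_of_injective F hF

theorem two_dvd (hle : N ≤ NM) (hsq : ∀ e ∈ NM, e * e ∈ N) (h : Sig NM N u σ)
    (ht : Kt NM N L t) (hNL : N ≤ L) {m : ℕ} (hm : 2 ^ m ≤ NM.index) : 2 ^ m ∣ L.index := by
  have hP : N ≤ L ⊓ NM := le_inf hNL hle
  -- the relative index is a power of 2
  have hpow : ∃ r, N.relIndex NM = 2 ^ r := by
    have h1 : IsPGroup 2 (NM ⧸ N.subgroupOf NM) := by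
      intro g
      refine ⟨1, ?_⟩
      induction g using QuotientGroup.induction_on with
      | H z =>
        rw [pow_one, pow_two, ← QuotientGroup.mk_mul, QuotientGroup.eq_one_iff,
          Subgroup.mem_subgroupOf]
        exact hsq _ z.2
    have h2 : (N.subgroupOf NM).FiniteIndex := inferInstance
    have : Finite (NM ⧸ N.subgroupOf NM) := inferInstance
    exact (IsPGroup.iff_card).1 h1
  obtain ⟨r, hr⟩ := hpow
  have hd : (L ⊓ NM).relIndex NM ∣ 2 ^ r := by
    rw [← hr, ← Subgroup.relIndex_mul_relIndex N (L ⊓ NM) NM hP inf_le_right]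
    exact dvd_mul_left _ _
  obtain ⟨s, -, hs⟩ := (Nat.dvd_prime_pow Nat.prime_two).1 hd
  have hms : 2 ^ m ∣ (L ⊓ NM).relIndex NM := by
    rw [hs]
    rcases index_le hle hsq h ht with h1 | h1
    · rw [hs] at h1
      exact Nat.pow_dvd_pow 2 ((Nat.pow_le_pow_iff_right (by norm_num)).1 (hm.trans h1))
    · rw [hs] at h1
      exact absurd h1 (by positivity)
  refine hms.trans ?_
  -- the relative index divides the index of `L`
  have hx : NM.relIndex L ≠ 0 := by
    haveI : (NM.subgroupOf L).FiniteIndex := inferInstance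
    exact Subgroup.FiniteIndex.index_ne_zero
  have e1 := Subgroup.relIndex_mul_relIndex (L ⊓ NM) NM (L ⊔ NM) inf_le_right le_sup_right
  have e2 := Subgroup.relIndex_mul_relIndex (L ⊓ NM) L (L ⊔ NM) inf_le_left le_sup_left
  rw [Subgroup.relIndex_sup_right] at e1
  rw [Subgroup.inf_relIndex_left] at e2
  have e3 : (L ⊓ NM).relIndex NM = L.relIndex (L ⊔ NM) := by
    have : (L ⊓ NM).relIndex NM * NM.relIndex L = L.relIndex (L ⊔ NM) * NM.relIndex L := by
      rw [e1, mul_comm (L.relIndex (L ⊔ NM)), e2]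
    exact Nat.eq_of_mul_eq_mul_right (Nat.pos_of_ne_zero hx) this
  rw [e3, ← Subgroup.relIndex_mul_index (H := L) (K := L ⊔ NM) le_sup_left]
  exact dvd_mul_right _ _

end Pool.Agent.GR
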