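import Pool.Agent.GR.RaDefs
import Pool.Agent.TS.L.Ext
import Pool.Agent.TS.X.Exc

/-!
# GR-Spl: a prime outside a finite set whose decomposition group lies in a given open normal subgroup
-/

namespace Pool.Agent.GR

open NumberField IsDedekindDomain Pool.Agent.HWR Pool.Agent.H73.DU Pool.Agent.H73.AL
  Pool.Agent.LD Pool.Agent.TS

private theorem sp_alg (inst : Algebra ℚ (AlgebraicClosure ℚ)) :
    IsAlgClosure ℚ (AlgebraicClosure ℚ) := by
  have h : inst = AlgebraicClosure.instAlgebra ℚ := Subsingleton.elim _ _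
  subst h
  infer_instance

private theorem sp_gal (X : NF) : ∃ (L : Type) (_ : Field L) (_ : NumberField L),
    IsGalois ℚ L ∧ ∃ _ : X.F →+* L, True := by
  have hcl : IsAlgClosure ℚ (AlgebraicClosure ℚ) := sp_alg inferInstance
  have hal : IsAlgClosed (AlgebraicClosure ℚ) := inferInstance
  have hno : Normal ℚ (AlgebraicClosure ℚ) := IsAlgClosure.normal ℚ _
  let φ1 : X.F →ₐ[ℚ] AlgebraicClosure ℚ := IsAlgClosed.lift
  let L : IntermediateField ℚ (AlgebraicClosure ℚ) :=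
    IntermediateField.normalClosure ℚ X.F (AlgebraicClosure ℚ)
  have hfin : FiniteDimensional ℚ L := normalClosure.is_finiteDimensional ℚ X.F _
  have hnorm : Normal ℚ L := normalClosure.normal ℚ X.F _
  have hgal : IsGalois ℚ L := {}
  have hnf : NumberField L := {}
  have hle : φ1.fieldRange ≤ L := AlgHom.fieldRange_le_normalClosure φ1
  let φ1' : X.F →+* L :=
    (IntermediateField.inclusion hle).toRingHom.comp φ1.rangeRestrict.toRingHom
  exact ⟨L, inferInstance, hnf, hgal, φ1', trivial⟩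

private theorem sp_aut {p : ℕ} [Fact p.Prime] (σ : AlgebraicClosure ℚ_[p] ≃ₐ[ℚ_[p]]
    AlgebraicClosure ℚ_[p]) (a : AlgebraicClosure ℚ_[p]) : ‖σ a‖ = ‖a‖ := by
  have h := (spectralNorm_eq_of_equiv σ a).symm
  exact h

private theorem sp_fix (L : Type) [Field L] [NumberField L] [IsGalois ℚ L] (p : ℕ)
    [Fact p.Prime] (Q : HeightOneSpectrum (𝓞 L)) (χ : L →+* AlgebraicClosure ℚ)
    (hχ : IsPl p χ Q) (hQ : ∀ γ : L ≃ₐ[ℚ] L, γ ≠ 1 →
      ∃ x y : 𝓞 L, x ∈ Q.asIdeal ∧ (y : L) = γ (x : L) ∧ y ∉ Q.asIdeal) :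
    ∀ d ∈ decomp ℚ_[p] (emb p), d • χ = χ := by
  rintro d ⟨σ, hσ⟩
  let _ : Algebra L (AlgebraicClosure ℚ) := χ.toAlgebra
  have hst : IsScalarTower ℚ L (AlgebraicClosure ℚ) :=
    IsScalarTower.of_algebraMap_eq' (Subsingleton.elim _ _)
  have hd : ∀ x : L, χ ((AlgEquiv.restrictNormal d L) x) = d (χ x) :=
    fun x => AlgEquiv.restrictNormal_commutes d L x
  have h1 : AlgEquiv.restrictNormal d L = 1 := by
    by_contra hne
    obtain ⟨x, y, hx, hy, hyQ⟩ := hQ _ hne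
    apply hyQ
    rw [hχ y, hy, hd, hσ, sp_aut]
    exact (hχ x).1 hx
  ext x
  rw [smul_emb, ← hd, h1]
  rfl

/-- a totally split prime outside `T`: its decomposition group lies in `NM` -/
theorem exists_spl (T : Finset ℕ) (NM : Subgroup GQ) [NM.Normal] (hNM : IsOpen (NM : Set GQ)) :
    ∃ (p : ℕ) (_ : Fact p.Prime), p ∉ T ∧ decomp ℚ_[p] (emb p) ≤ NM := by
  classical
  obtain ⟨X, ι, hι, -, -⟩ := exists_nf NM hNM
  obtain ⟨L, _, _, hgal, j, -⟩ := sp_gal X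
  obtain ⟨m, hm⟩ : ∃ m : ℤ, m = ∏ p ∈ T.filter Nat.Prime, (p : ℤ) := ⟨_, rfl⟩
  have hm0 : m ≠ 0 := by
    rw [hm]
    refine Finset.prod_ne_zero_iff.2 fun p hp => ?_
    exact_mod_cast (Finset.mem_filter.1 hp).2.ne_zero
  obtain ⟨Q, l, hQ1, hQ2, hl, hlQ, hlm, hQ3⟩ := exists_split L m hm0
  have hlT : l ∉ T := by
    intro h
    apply hlm
    rw [hm]
    exact Finset.dvd_prod_of_mem (fun p : ℕ => (p : ℤ)) (Finset.mem_filter.2 ⟨h, hl⟩)
  have : Fact l.Prime := ⟨hl⟩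
  obtain ⟨χ, hχ⟩ := exists_emb l L ⟨Q, hQ1, hQ2⟩ hlQ
  have hfix := sp_fix L l ⟨Q, hQ1, hQ2⟩ χ hχ hQ3
  refine ⟨l, ⟨hl⟩, hlT, fun d hd => ?_⟩
  obtain ⟨g, hg⟩ := trans_emb X.F ι (χ.comp j)
  have h2 : d • (χ.comp j) = χ.comp j := by
    ext x
    exact RingHom.congr_fun (hfix d hd) (j x)
  have h3 : g⁻¹ * d * g ∈ NM := by
    rw [← hι]
    refine MulAction.mem_stabilizer_iff.2 ?_
    rw [mul_smul, mul_smul, hg, h2, ← hg, inv_smul_smul]
  have h4 := Subgroup.Normal.conj_mem (inferInstance : NM.Normal) _ h3 g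
  have h5 : g * (g⁻¹ * d * g) * g⁻¹ = d := by group
  rwa [h5] at h4

end Pool.Agent.GR
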