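import Pool.Agent.GR.RaDefs
import Pool.Agent.GR.Spl
import Pool.Agent.TS.L.Ext
import Pool.Agent.TS.X.Exc

/-!
# GR-Sig: a quadratic extension with independent conjugates

PLAN.  As `exists_N` (TS/L/Ext, copy the private lemmas): `M` with `stb ι = NM` (`exists_nf`), `M / ℚ` is Galois as `NM` is normal.
A prime `p` (not in `T ∪ {2}`) totally split in `M`: as in `exists_odd_place` (TS/X/Exc: `exists_split`, `xe_fix`), so that the
decomposition group at `p` is contained in `NM` (normal; `stb` of one embedding fixed by `decomp`).  `x` from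
`exists_x (V := {p}) hTp h2 M ι`: not a local square at the place of `ι` above `p`, local square at the others.  `s ^ 2 = ι x`.
`N = {g ∈ NM | ∀ γ, g (γ s) = γ s}`.  `σ a y = 0` if `a (γ s) = γ s`, `1` otherwise, `γ` any representative of `y`
(well defined for `a ∈ NM`: `(γ ν) s = ± γ s`).  `u ∈ decomp` with `u s = - s`; for `γ ∉ NM`: `u (γ s) = γ s`, otherwise
(proof of `exists_N`) there is `d ∈ decomp` with `d • ι = γ • ι`, so `γ⁻¹ d ∈ NM`, `γ ∈ NM`.
-/

namespace Pool.Agent.GR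

open NumberField IsDedekindDomain MulAction Pool.Agent.HWR Pool.Agent.QD
  Pool.Agent.H73.DU Pool.Agent.H73.AL Pool.Agent.LD Pool.Agent.MX Pool.Agent.TS

private theorem sig_neg {z : AlgebraicClosure ℚ} (hz : z ≠ 0) : -z ≠ z := by
  intro h
  apply hz
  have h1 : (2 : AlgebraicClosure ℚ) * z = 0 := by
    linear_combination -h
  exact (mul_eq_zero.1 h1).resolve_left two_ne_zero

private def sig_N (NM : Subgroup GQ) (s : AlgebraicClosure ℚ) : Subgroup GQ where
  carrier := {g | g ∈ NM ∧ ∀ γ : GQ, g (γ s) = γ s}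
  mul_mem' := by
    rintro a b ⟨ha, ha'⟩ ⟨hb, hb'⟩
    refine ⟨NM.mul_mem ha hb, fun γ => ?_⟩
    show a (b (γ s)) = γ s
    rw [hb', ha']
  one_mem' := ⟨NM.one_mem, fun _ => rfl⟩
  inv_mem' := by
    rintro a ⟨ha, ha'⟩
    refine ⟨NM.inv_mem ha, fun γ => ?_⟩
    have h1 : a⁻¹ (a (γ s)) = γ s := by
      show (a⁻¹ * a) (γ s) = γ s
      rw [inv_mul_cancel]
      rfl
    rwa [ha'] at h1

private theorem sig_open (NM : Subgroup GQ) (hNM : IsOpen (NM : Set GQ))
    (s : AlgebraicClosure ℚ) : IsOpen (sig_N NM s : Set GQ) := by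
  have hint : IsIntegral ℚ s := by
    have : Algebra.IsAlgebraic ℚ (AlgebraicClosure ℚ) := AlgebraicClosure.isAlgebraic ℚ
    exact (Algebra.IsAlgebraic.isAlgebraic s).isIntegral
  have hfin : FiniteDimensional ℚ (IntermediateField.adjoin ℚ {s}) :=
    IntermediateField.adjoin.finiteDimensional hint
  set E : Subgroup GQ := (IntermediateField.adjoin ℚ {s}).fixingSubgroup with hE
  have h1 : IsOpen (E : Set GQ) := IntermediateField.fixingSubgroup_isOpen _
  have h2 : IsOpen (E.normalCore : Set GQ) := (nice_rat ∅).core h1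
  have h3 : IsOpen ((NM ⊓ E.normalCore : Subgroup GQ) : Set GQ) := hNM.inter h2
  refine Subgroup.isOpen_mono ?_ h3
  rintro g ⟨hg, hg'⟩
  refine ⟨hg, fun γ => ?_⟩
  have h4 : γ⁻¹ * g * γ⁻¹⁻¹ ∈ E := hg' γ⁻¹
  rw [inv_inv] at h4
  have h5 := (IntermediateField.mem_fixingSubgroup_iff _ _).1 h4 s
    (IntermediateField.mem_adjoin_simple_self ℚ s)
  have h6 : γ⁻¹ (g (γ s)) = s := h5
  have h7 := congrArg γ h6
  have h8 : γ (γ⁻¹ (g (γ s))) = g (γ s) := by
    show (γ * γ⁻¹) (g (γ s)) = _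
    rw [mul_inv_cancel]
    rfl
  rwa [h8] at h7

private theorem sig_norm (NM : Subgroup GQ) (hn : NM.Normal) (s : AlgebraicClosure ℚ) :
    (sig_N NM s).Normal := by
  constructor
  rintro g ⟨hg, hg'⟩ h
  refine ⟨hn.conj_mem g hg h, fun γ => ?_⟩
  show h (g ((h⁻¹ * γ) s)) = γ s
  rw [hg']
  show (h * (h⁻¹ * γ)) s = γ s
  rw [mul_inv_cancel_left]

theorem exists_sig (NM : Subgroup GQ) [NM.Normal] (hNM : IsOpen (NM : Set GQ)) :
    ∃ (N : Subgroup GQ) (u : GQ) (σ : GQ → (GQ ⧸ NM) → ZMod 2), N.Normal ∧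
      IsOpen (N : Set GQ) ∧ N ≤ NM ∧ (∀ e ∈ NM, e * e ∈ N) ∧
      N.index ≤ NM.index * 2 ^ NM.index ∧ Sig NM N u σ := by
  classical
  have hn : NM.Normal := inferInstance
  obtain ⟨p, hpf, hpT, hdec⟩ := exists_spl {2} NM hNM
  obtain ⟨M, ι, hι, -, -⟩ := exists_nf NM hNM
  obtain ⟨x, hx⟩ := exists_x (V := {p}) (T := {2})
    (fun q hq => by rw [Finset.mem_singleton.1 hq]; exact Nat.prime_two)
    (Finset.mem_singleton_self 2) M ι
  obtain ⟨s, hs⟩ := IsAlgClosed.exists_pow_nat_eq (ι (x : M.F)) (n := 2) two_pos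
  have hx0 : ι (x : M.F) ≠ 0 := by
    rw [Ne, map_eq_zero]
    exact x.ne_zero
  have hs0 : s ≠ 0 := by
    rintro rfl
    rw [zero_pow two_ne_zero] at hs
    exact hx0 hs.symm
  have hγ0 : ∀ γ : GQ, γ s ≠ 0 := fun γ h => hs0 ((map_eq_zero γ).1 h)
  have hfix : ∀ e ∈ NM, ∀ z : M.F, e (ι z) = ι z := by
    intro e he z
    rw [← hι] at he
    have h1 : e • ι = ι := MulAction.mem_stabilizer_iff.1 he
    exact congrArg (fun φ : M.F →+* AlgebraicClosure ℚ => φ z) h1
  have key : ∀ e ∈ NM, ∀ γ : GQ, e (γ s) = γ s ∨ e (γ s) = -γ s := by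
    intro e he γ
    have h1 : γ⁻¹ * e * γ⁻¹⁻¹ ∈ NM := hn.conj_mem e he γ⁻¹
    rw [inv_inv] at h1
    have h2 : γ⁻¹ (e (γ (ι (x : M.F)))) = ι (x : M.F) := hfix _ h1 _
    have h3 : e (γ (ι (x : M.F))) = γ (ι (x : M.F)) := by
      have h4 := congrArg γ h2
      have h5 : γ (γ⁻¹ (e (γ (ι (x : M.F))))) = e (γ (ι (x : M.F))) := by
        show (γ * γ⁻¹) (e (γ (ι (x : M.F)))) = _
        rw [mul_inv_cancel]
        rfl
      rwa [h5] at h4
    rw [← hs, map_pow, map_pow] at h3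
    exact sq_eq_sq_iff_eq_or_eq_neg.1 h3
  have hfi : NM.FiniteIndex := (nice_rat ∅).finiteIndex hNM
  have hmul : ∀ γ : GQ, ∀ ν ∈ NM, ∀ a : GQ,
      (a ((γ * ν) s) = (γ * ν) s ↔ a (γ s) = γ s) := by
    intro γ ν hν a
    have h1 : (γ * ν) s = γ s ∨ (γ * ν) s = -γ s := by
      rcases key ν hν 1 with h | h
      · left
        exact congrArg γ h
      · right
        have h2 : γ (ν s) = γ (-s) := congrArg γ h
        rw [map_neg] at h2
        exact h2
    rcases h1 with h | h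
    · rw [h]
    · rw [h, map_neg]
      exact neg_inj
  obtain ⟨σ, hσ⟩ : ∃ σ : GQ → (GQ ⧸ NM) → ZMod 2, ∀ a γ : GQ,
      σ a (γ : GQ ⧸ NM) = if a (γ s) = γ s then 0 else 1 := by
    refine ⟨fun a y => if a (y.out s) = y.out s then 0 else 1, fun a γ => ?_⟩
    obtain ⟨ν, hν⟩ := QuotientGroup.mk_out_eq_mul NM γ
    show (if a (((γ : GQ ⧸ NM).out) s) = ((γ : GQ ⧸ NM).out) s then (0 : ZMod 2) else 1) = _
    rw [hν]
    exact if_congr (hmul γ ν ν.2 a) rfl rfl
  -- the element `u`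
  obtain ⟨w, hw⟩ := exists_isPl p ι
  have hnl := (hx p (Finset.mem_singleton_self p) hpT w (isPl_mem hw)).1 hw
  obtain ⟨u, hu, huM, hus⟩ : ∃ u ∈ decomp ℚ_[p] (emb p), u ∈ NM ∧ u s ≠ s := by
    by_contra hcon
    push Not at hcon
    refine hnl (lsq_of_fix p ι hw x s hs fun g hg hg' => ?_)
    rw [hι] at hg'
    exact hcon g hg hg'
  refine ⟨sig_N NM s, u, σ, sig_norm NM hn s, sig_open NM hNM s, fun g hg => hg.1, ?_, ?_, ?_⟩
  · intro e he
    refine ⟨NM.mul_mem he he, fun γ => ?_⟩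
    show e (e (γ s)) = γ s
    rcases key e he γ with h | h
    · rw [h, h]
    · rw [h, map_neg, h, neg_neg]
  · refine idx_pow NM (sig_N NM s) (fun g hg => hg.1)
      (fun γ a => if a (γ s) = γ s then 1 else -1) ?_ ?_ ?_
    · intro γ a ha b hb
      have h0 := sig_neg (hγ0 γ)
      show (if a (b (γ s)) = γ s then (1 : ℤˣ) else -1) =
        (if a (γ s) = γ s then 1 else -1) * (if b (γ s) = γ s then 1 else -1)
      rcases key a ha γ with h | h <;> rcases key b hb γ with h' | h'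
      · rw [h', h, if_pos rfl, mul_one]
      · rw [h', map_neg, h, if_neg h0, if_pos rfl, one_mul]
      · rw [h', h, if_neg h0, if_pos rfl, mul_one]
      · rw [h', map_neg, h, neg_neg, if_pos rfl, if_neg h0]
        rfl
    · intro γ ν hν a ha
      exact if_congr (hmul γ ν hν a) rfl rfl
    · intro a ha h
      refine ⟨ha, fun γ => ?_⟩
      by_contra hcon
      have h1 := h γ
      simp only [if_neg hcon] at h1
      exact absurd h1 (by decide)
  · refine ⟨huM, ?_, ?_, ?_, ?_, ?_⟩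
    · intro a ha b hb
      funext y
      obtain ⟨γ, rfl⟩ := QuotientGroup.mk_surjective y
      have h0 := sig_neg (hγ0 γ)
      rw [Pi.add_apply, hσ, hσ, hσ]
      show (if a (b (γ s)) = γ s then (0 : ZMod 2) else 1) =
        (if a (γ s) = γ s then 0 else 1) + (if b (γ s) = γ s then 0 else 1)
      rcases key a ha γ with h | h <;> rcases key b hb γ with h' | h'
      · rw [h', h, if_pos rfl, add_zero]
      · rw [h', map_neg, h, if_neg h0, if_pos rfl, zero_add]
      · rw [h', h, if_neg h0, if_pos rfl, add_zero]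
      · rw [h', map_neg, h, neg_neg, if_pos rfl, if_neg h0]
        rfl
    · intro g a ha y
      obtain ⟨γ, rfl⟩ := QuotientGroup.mk_surjective y
      have h1 : g • ((γ : GQ) : GQ ⧸ NM) = ((g * γ : GQ) : GQ ⧸ NM) := rfl
      show σ (g * a * g⁻¹) (g • ((γ : GQ) : GQ ⧸ NM)) = σ a ((γ : GQ) : GQ ⧸ NM)
      rw [h1, hσ, hσ]
      have h2 : (g * a * g⁻¹) ((g * γ) s) = g (a (γ s)) := by
        show (g * a) (g⁻¹ (g (γ s))) = g (a (γ s))
        have h3 : g⁻¹ (g (γ s)) = γ s := by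
          show (g⁻¹ * g) (γ s) = γ s
          rw [inv_mul_cancel]
          rfl
        rw [h3]
        rfl
      rw [h2]
      refine if_congr ?_ rfl rfl
      show g (a (γ s)) = g (γ s) ↔ a (γ s) = γ s
      exact g.injective.eq_iff
    · intro a ha
      funext y
      obtain ⟨γ, rfl⟩ := QuotientGroup.mk_surjective y
      show σ a ((γ : GQ) : GQ ⧸ NM) = 0
      rw [hσ, if_pos (ha.2 γ)]
    · rw [hσ]
      refine if_neg ?_
      show ¬ u s = s
      exact hus
    · intro y hy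
      obtain ⟨γ, rfl⟩ := QuotientGroup.mk_surjective y
      show σ u ((γ : GQ) : GQ ⧸ NM) = 0
      rw [hσ]
      refine if_pos ?_
      obtain ⟨w', hw'⟩ := exists_isPl p (γ • ι)
      have hpl : ¬ IsPl p ι w' := by
        intro hcon
        obtain ⟨d, hd, hdι⟩ := conj_pl p ι (γ • ι) hcon hw'
        have h4 : γ⁻¹ * d ∈ NM := by
          rw [← hι]
          refine MulAction.mem_stabilizer_iff.2 ?_
          rw [mul_smul, hdι, inv_smul_smul]
        have h5 : γ⁻¹ ∈ NM := by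
          have h6 := NM.mul_mem h4 (NM.inv_mem (hdec hd))
          rwa [mul_inv_cancel_right] at h6
        apply hy
        have h7 : γ ∈ NM := (Subgroup.inv_mem_iff NM).1 h5
        exact ((QuotientGroup.eq_one_iff γ).2 h7)
      have h4 := (hx p (Finset.mem_singleton_self p) hpT w' (isPl_mem hw')).2 hpl
      refine Pool.Agent.MD.fix_of_lsq p (γ • ι) hw' x (γ s) ?_ h4 u hu ?_
      · rw [← map_pow, hs]
        rfl
      · refine MulAction.mem_stabilizer_iff.2 ?_
        have h5 : γ⁻¹ * u * γ ∈ stb ι := by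
          rw [hι]
          have h6 := hn.conj_mem u huM γ⁻¹
          rwa [inv_inv] at h6
        have h6 : (γ⁻¹ * u * γ) • ι = ι := MulAction.mem_stabilizer_iff.1 h5
        have h7 : u • γ • ι = γ • ((γ⁻¹ * u * γ) • ι) := by
          rw [← mul_smul, ← mul_smul]
          congr 1
          group
        rw [h7, h6]

end Pool.Agent.GR
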